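import Mathlib

set_option autoImplicit false

/-!
# Ramsey's theorem for finite subsets of the natural numbers, and a compactness principle
-/

namespace Pool.Agent.Lib.MP_3240be_co.H36

open Filter Topology

/-- A finite-valued function is constant along an ultrafilter. -/
theorem ulim {C : Type*} [Finite C] {ι : Type*} (𝒰 : Ultrafilter ι) (ψ : ι → C) :
    ∃ c, ∀ᶠ n in (𝒰 : Filter ι), ψ n = c :=
  (Ultrafilter.eventually_exists_iff).1 (Filter.Eventually.of_forall fun n => ⟨ψ n, rfl⟩)

/-- Ramsey's theorem: for every colouring of the finite sets of natural numbers with finitely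
many colours there is an `m`-set whose subsets of equal size have equal colours. -/
theorem ramsey {C : Type*} [Finite C] (χ : Finset ℕ → C) (m : ℕ) :
    ∃ S : Finset ℕ, S.card = m ∧ ∀ K K' : Finset ℕ, K ⊆ S → K' ⊆ S → K.card = K'.card →
      χ K = χ K' := by
  classical
  choose lim hlim using fun ψ : ℕ → C => ulim (hyperfilter ℕ) ψ
  let φ : ℕ → Finset ℕ → C := fun d =>
    Nat.rec χ (fun _ ψ K => lim (fun n => ψ (insert n K))) d
  have hφ : ∀ d K, ∀ᶠ n in ((hyperfilter ℕ : Ultrafilter ℕ) : Filter ℕ),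
      φ d (insert n K) = φ (d + 1) K := fun d K => hlim _
  have key : ∀ j, ∃ S : Finset ℕ, S.card = j ∧ ∀ K : Finset ℕ, K ⊆ S → ∀ d, d + K.card ≤ m →
      φ d K = φ (d + K.card) ∅ := by
    intro j
    induction j with
    | zero =>
      refine ⟨∅, rfl, fun K hK d _ => ?_⟩
      rw [Finset.subset_empty.1 hK]
      rfl
    | succ j ih =>
      obtain ⟨S, hS, hS'⟩ := ih
      have h1 : ∀ᶠ n in ((hyperfilter ℕ : Ultrafilter ℕ) : Filter ℕ), n ∉ S := by
        have : ((S : Set ℕ)ᶜ) ∈ hyperfilter ℕ :=
          compl_mem_hyperfilter_of_finite S.finite_toSet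
        exact this
      have h2 : ∀ᶠ n in ((hyperfilter ℕ : Ultrafilter ℕ) : Filter ℕ), ∀ K ∈ S.powerset,
          ∀ d ∈ Finset.range (m + 1), φ d (insert n K) = φ (d + 1) K := by
        rw [Filter.eventually_all_finset]
        intro K _
        rw [Filter.eventually_all_finset]
        intro d _
        exact hφ d K
      obtain ⟨n, hn1, hn2⟩ := (h1.and h2).exists
      refine ⟨insert n S, by rw [Finset.card_insert_of_notMem hn1, hS], ?_⟩
      intro K hK d hd
      by_cases hnK : n ∈ K
      · have hK' : K.erase n ⊆ S := by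
          intro x hx
          rw [Finset.mem_erase] at hx
          exact (Finset.mem_insert.1 (hK hx.2)).resolve_left hx.1
        have hcard : (K.erase n).card + 1 = K.card := Finset.card_erase_add_one hnK
        have e1 := hn2 (K.erase n) (Finset.mem_powerset.2 hK') d (Finset.mem_range.2 (by omega))
        rw [Finset.insert_erase hnK] at e1
        rw [e1, hS' _ hK' (d + 1) (by omega)]
        congr 1
        omega
      · exact hS' K (fun x hx => (Finset.mem_insert.1 (hK hx)).resolve_left
          (fun h => hnK (h ▸ hx))) d hd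
  obtain ⟨S, hS, hS'⟩ := key m
  refine ⟨S, hS, fun K K' hK hK' hc => ?_⟩
  have a1 := hS' K hK 0 (by have := Finset.card_le_card hK; omega)
  have a2 := hS' K' hK' 0 (by have := Finset.card_le_card hK'; omega)
  have b1 : χ K = φ 0 K := rfl
  have b2 : χ K' = φ 0 K' := rfl
  rw [b1, b2, a1, a2, hc]

/-- Compactness: if every two-colouring of the pairs of `V` has a finite set witnessing `P`, then
one finite set witnesses `P` for all colourings. -/
theorem extract {V : Type*} (P : Finset V → (V → V → Bool) → Prop)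
    (mono : ∀ S T c, S ⊆ T → P S c → P T c)
    (loc : ∀ S c c', (∀ x ∈ S, ∀ y ∈ S, c x y = c' x y) → P S c → P S c')
    (h : ∀ c, (∀ x y, c x y = c y x) → ∃ S, P S c) :
    ∃ S, ∀ c, (∀ x y, c x y = c y x) → P S c := by
  classical
  by_contra hcon
  push Not at hcon
  choose c hsym hc using hcon
  let U : Ultrafilter (Finset V) := Ultrafilter.of Filter.atTop
  choose lim hlim using fun (p : V × V) => ulim U (fun S => c S p.1 p.2)
  obtain ⟨S0, hS0⟩ := h (fun x y => lim (x, y)) (by
    intro x y
    obtain ⟨S, h1, h2⟩ := ((hlim (x, y)).and (hlim (y, x))).exists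
    rw [← h1, ← h2]
    exact hsym S x y)
  have h1 : ∀ᶠ S in (U : Filter (Finset V)), S0 ⊆ S :=
    (Ultrafilter.of_le _) (Filter.eventually_ge_atTop S0)
  have h2 : ∀ᶠ S in (U : Filter (Finset V)), ∀ x ∈ S0, ∀ y ∈ S0, c S x y = lim (x, y) := by
    rw [Filter.eventually_all_finset]
    intro x _
    rw [Filter.eventually_all_finset]
    intro y _
    exact hlim (x, y)
  obtain ⟨S, h3, h4⟩ := (h1.and h2).exists
  exact hc S (mono S0 S _ h3 (loc S0 _ _ (fun x hx y hy => (h4 x hx y hy).symm) hS0))

/-- The finite form of the compactness principle, with the colouring given on `Fin m` and `V`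
replaced by the range of an injection of `Fin m`. -/
theorem extract_fin {V : Type*} (P : Finset V → (V → V → Bool) → Prop)
    (mono : ∀ S T c, S ⊆ T → P S c → P T c)
    (loc : ∀ S c c', (∀ x ∈ S, ∀ y ∈ S, c x y = c' x y) → P S c → P S c')
    (h : ∀ c, (∀ x y, c x y = c y x) → ∃ S, P S c) :
    ∃ (S : Finset V) (m : ℕ) (ε : Fin m → V), Function.Injective ε ∧
      (∀ x ∈ S, ∃ i, ε i = x) ∧ ∀ c' : Fin m → Fin m → Bool, (∀ x y, c' x y = c' y x) →
        ∃ c : V → V → Bool, (∀ x y, c x y = c y x) ∧ (∀ i j, c (ε i) (ε j) = c' i j) ∧ P S c := by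
  classical
  obtain ⟨S, hS⟩ := extract P mono loc h
  refine ⟨S, S.card, fun i => (S.equivFin.symm i).1, ?_, ?_, ?_⟩
  · intro i j hij
    exact S.equivFin.symm.injective (Subtype.ext hij)
  · intro x hx
    exact ⟨S.equivFin ⟨x, hx⟩, by simp⟩
  · intro c' hc'
    let c : V → V → Bool := fun x y => if h : x ∈ S ∧ y ∈ S then
      c' (S.equivFin ⟨x, h.1⟩) (S.equivFin ⟨y, h.2⟩) else false
    have hc : ∀ x y, c x y = c y x := by
      intro x y
      by_cases h : x ∈ S ∧ y ∈ S
      · have h' : y ∈ S ∧ x ∈ S := ⟨h.2, h.1⟩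
        simp only [c, h, h', dif_pos, and_self]
        exact hc' _ _
      · have h' : ¬ (y ∈ S ∧ x ∈ S) := fun h' => h ⟨h'.2, h'.1⟩
        simp only [c, dif_neg h, dif_neg h']
    refine ⟨c, hc, ?_, hS c hc⟩
    intro i j
    have h : (S.equivFin.symm i).1 ∈ S ∧ (S.equivFin.symm j).1 ∈ S :=
      ⟨(S.equivFin.symm i).2, (S.equivFin.symm j).2⟩
    simp only [c, dif_pos h, Subtype.coe_eta, Equiv.apply_symm_apply]

end Pool.Agent.Lib.MP_3240be_co.H36
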