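import Mathlib
import Pool.Agent.Lib.MP_3240be_co.H36.Ramsey

set_option autoImplicit false

/-!
# Window graphs

For a finite graph `R` on `Fin n` we build a graph on the set of all strictly increasing windows
`Fin L → ℕ`.  It is locally `p`-colourable when `R` is, and every colouring of its vertices with
finitely many colours has a monochromatic copy of `R`.
-/

namespace Pool.Agent.Lib.MP_3240be_co.H36

open Finset

/-- `G` is `p`-colourable on every set of at most `g` vertices. -/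
def LocCol {V : Type} (G : SimpleGraph V) (g p : ℕ) : Prop :=
  ∀ X : Finset V, X.card ≤ g →
    ∃ f : V → ℕ, (∀ x, f x < p) ∧ ∀ x ∈ X, ∀ y ∈ X, G.Adj x y → f x ≠ f y

/-- Powers of `M` are dissociated. -/
theorem dissoc (M : ℤ) (n : ℕ) (v : Fin n → ℤ) (hv : ∀ x, |v x| < M)
    (h : ∑ x, v x * M ^ (x : ℕ) = 0) : ∀ x, v x = 0 := by
  induction n with
  | zero => intro x; exact x.elim0
  | succ n ih =>
    have hM : 0 < M := lt_of_le_of_lt (abs_nonneg _) (hv 0)
    rw [Fin.sum_univ_succ] at h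
    have hs : ∑ i : Fin n, v i.succ * M ^ ((i.succ : Fin (n + 1)) : ℕ)
        = M * ∑ i : Fin n, v i.succ * M ^ (i : ℕ) := by
      rw [Finset.mul_sum]
      refine Finset.sum_congr rfl (fun i _ => ?_)
      rw [Fin.val_succ, pow_succ]
      ring
    rw [hs] at h
    simp only [Fin.val_zero, pow_zero, mul_one] at h
    have hd : M ∣ v 0 := ⟨-(∑ i : Fin n, v i.succ * M ^ (i : ℕ)), by linarith⟩
    have h0 : v 0 = 0 := Int.eq_zero_of_abs_lt_dvd hd (hv 0)
    have h1 : ∑ i : Fin n, v i.succ * M ^ (i : ℕ) = 0 := by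
      rw [h0, zero_add] at h
      exact (mul_eq_zero.1 h).resolve_left hM.ne'
    have h2 := ih (fun i => v i.succ) (fun i => hv _) h1
    intro x
    refine Fin.cases h0 (fun i => h2 i) x

/-- Windows of length `L`. -/
abbrev Win (L : ℕ) : Type := {a : Fin L → ℕ // StrictMono a}

/-- The window graph of `R` with shifts `s`. -/
def shiftG {n : ℕ} (L : ℕ) (s : Fin n → ℕ) (R : SimpleGraph (Fin n)) : SimpleGraph (Win L) where
  Adj a b := a ≠ b ∧ ∃ x y, R.Adj x y ∧ ∀ i j : Fin L, (i : ℕ) + s x = j + s y → a.1 i = b.1 j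
  symm := ⟨by
    rintro a b ⟨hab, x, y, hxy, h⟩
    exact ⟨hab.symm, y, x, hxy.symm, fun i j hij => (h j i hij.symm).symm⟩⟩
  loopless := ⟨by
    rintro a ⟨h, _⟩
    exact h rfl⟩

/-- `b` is the window `a` shifted by `∑ v x * s x`. -/
def Tr {n : ℕ} (L : ℕ) (s : Fin n → ℕ) (S m : ℕ) (v : Fin n → ℤ) (a b : Win L) : Prop :=
  (∀ x, |v x| ≤ m) ∧ |∑ x, v x * (s x : ℤ)| ≤ m * S ∧
    ∀ i j : Fin L, m * S ≤ (i : ℕ) → (i : ℕ) + m * S < L →
      (j : ℤ) = (i : ℤ) + ∑ x, v x * (s x : ℤ) → a.1 i = b.1 j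

theorem Tr.refl {n : ℕ} (L : ℕ) (s : Fin n → ℕ) (S : ℕ) (a : Win L) :
    Tr L s S 0 (fun _ => 0) a a := by
  refine ⟨by simp, by simp, ?_⟩
  intro i j _ _ hij
  have : (j : ℕ) = i := by
    simp at hij
    omega
  rw [Fin.ext this]

theorem Tr.mono {n : ℕ} {L : ℕ} {s : Fin n → ℕ} {S m m' : ℕ} (hm : m ≤ m') {v : Fin n → ℤ}
    {a b : Win L} (h : Tr L s S m v a b) : Tr L s S m' v a b := by
  obtain ⟨h1, h2, h3⟩ := h
  have h4 : m * S ≤ m' * S := Nat.mul_le_mul_right _ hm
  refine ⟨fun x => (h1 x).trans (by exact_mod_cast hm), h2.trans (by exact_mod_cast h4), ?_⟩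
  intro i j hi hi' hij
  exact h3 i j (by omega) (by omega) hij

theorem Tr.step {n : ℕ} {L : ℕ} {s : Fin n → ℕ} {S m : ℕ} (hS : ∀ x, s x ≤ S) {v : Fin n → ℤ}
    {a b c : Win L} (h : Tr L s S m v a b) (x y : Fin n)
    (hbc : ∀ i j : Fin L, (i : ℕ) + s x = j + s y → b.1 i = c.1 j) :
    Tr L s S (m + 1) (v + Pi.single x 1 - Pi.single y 1) a c := by
  obtain ⟨h1, h2, h3⟩ := h
  have hsum : ∑ z, (v + Pi.single x 1 - Pi.single y 1 : Fin n → ℤ) z * (s z : ℤ)
      = ∑ z, v z * (s z : ℤ) + s x - s y := by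
    simp only [Pi.add_apply, Pi.sub_apply, sub_mul, add_mul, Finset.sum_sub_distrib,
      Finset.sum_add_distrib]
    congr 1
    · congr 1
      rw [Finset.sum_eq_single x]
      · simp
      · intro z _ hz
        simp [Pi.single_eq_of_ne hz]
      · simp
    · rw [Finset.sum_eq_single y]
      · simp
      · intro z _ hz
        simp [Pi.single_eq_of_ne hz]
      · simp
  have hx := hS x
  have hy := hS y
  have h2' := abs_le.1 h2
  have hmS : ((m : ℤ) + 1) * S = m * S + S := by ring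
  refine ⟨?_, ?_, ?_⟩
  · intro z
    have hz := abs_le.1 (h1 z)
    have e1 : (Pi.single x (1 : ℤ) : Fin n → ℤ) z = if z = x then 1 else 0 := Pi.single_apply _ _ _
    have e2 : (Pi.single y (1 : ℤ) : Fin n → ℤ) z = if z = y then 1 else 0 := Pi.single_apply _ _ _
    rw [Pi.sub_apply, Pi.add_apply, e1, e2, abs_le]
    push_cast
    split_ifs <;> constructor <;> linarith [hz.1, hz.2]
  · rw [hsum, abs_le]
    push_cast
    rw [hmS]
    constructor <;> [skip; skip] <;> linarith [h2'.1, h2'.2, (by exact_mod_cast hx : (s x : ℤ) ≤ S),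
      (by exact_mod_cast hy : (s y : ℤ) ≤ S), (by positivity : (0 : ℤ) ≤ s x),
      (by positivity : (0 : ℤ) ≤ s y)]
  · intro i j hi hi' hij
    rw [hsum] at hij
    have hmS' : (m + 1) * S = m * S + S := by ring
    rw [hmS'] at hi hi'
    set D := ∑ z, v z * (s z : ℤ) with hD
    have hmS'' : ((m * S : ℕ) : ℤ) = (m : ℤ) * S := by push_cast; ring
    rw [← hmS''] at h2'
    have hj0 : 0 ≤ (i : ℤ) + D := by
      have : ((m * S : ℕ) : ℤ) ≤ (i : ℤ) := by
        have : m * S ≤ (i : ℕ) := by omega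
        exact_mod_cast this
      linarith [h2'.1]
    have hj1 : (i : ℤ) + D < L := by
      have : (i : ℤ) + ((m * S : ℕ) : ℤ) < (L : ℤ) := by
        have : (i : ℕ) + m * S < L := by omega
        exact_mod_cast this
      linarith [h2'.2]
    obtain ⟨j', hj'⟩ : ∃ j' : Fin L, (j' : ℤ) = (i : ℤ) + D := by
      refine ⟨⟨((i : ℤ) + D).toNat, by omega⟩, ?_⟩
      simp only
      omega
    rw [h3 i j' (by omega) (by omega) hj']
    apply hbc
    omega

theorem Tr.unique {n : ℕ} {L : ℕ} {M S m : ℕ} (hM : 2 * m < M) (hL : 2 * (m * S) < L)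
    {v v' : Fin n → ℤ} {a b : Win L} (h : Tr L (fun x : Fin n => M ^ (x : ℕ)) S m v a b)
    (h' : Tr L (fun x : Fin n => M ^ (x : ℕ)) S m v' a b) : v = v' := by
  obtain ⟨h1, h2, h3⟩ := h
  obtain ⟨h1', h2', h3'⟩ := h'
  set D := ∑ z : Fin n, v z * (((M ^ (z : ℕ) : ℕ)) : ℤ) with hD
  set D' := ∑ z : Fin n, v' z * (((M ^ (z : ℕ) : ℕ)) : ℤ) with hD'
  have e : ((m * S : ℕ) : ℤ) = (m : ℤ) * S := by push_cast; ring
  rw [← e, abs_le] at h2 h2'
  have key : ∀ E : ℤ, -((m * S : ℕ) : ℤ) ≤ E ∧ E ≤ ((m * S : ℕ) : ℤ) →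
      ∃ j : Fin L, (j : ℤ) = ((m * S : ℕ) : ℤ) + E := by
    intro E hE
    refine ⟨⟨(((m * S : ℕ) : ℤ) + E).toNat, by omega⟩, ?_⟩
    simp only
    omega
  obtain ⟨j, hj⟩ := key D h2
  obtain ⟨j', hj'⟩ := key D' h2'
  have g1 := h3 ⟨m * S, by omega⟩ j le_rfl (by simp only; omega) hj
  have g2 := h3' ⟨m * S, by omega⟩ j' le_rfl (by simp only; omega) hj'
  have g3 : j = j' := b.2.injective (g1.symm.trans g2)
  have g4 : D = D' := by
    rw [g3] at hj
    linarith
  have g5 := dissoc (M : ℤ) n (fun x => v x - v' x) (fun x => by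
    have a1 := abs_le.1 (h1 x)
    have a2 := abs_le.1 (h1' x)
    have a3 : (2 : ℤ) * m < M := by exact_mod_cast hM
    rw [abs_lt]
    constructor <;> linarith [a1.1, a1.2, a2.1, a2.2]) (by
    simp only [sub_mul, Finset.sum_sub_distrib]
    rw [sub_eq_zero]
    rw [hD, hD'] at g4
    push_cast at g4
    exact g4)
  funext x
  linarith [g5 x]

/-- Local colourability of the window graph. -/
theorem shiftG_locCol {n : ℕ} (R : SimpleGraph (Fin n)) (g p M S L : ℕ) (hp : 0 < p)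
    (hM : 2 * g < M) (hS : ∀ x : Fin n, M ^ (x : ℕ) ≤ S) (hL : 2 * (g * S) < L)
    (hR : LocCol R (2 * g ^ 2) p) :
    LocCol (shiftG L (fun x : Fin n => M ^ (x : ℕ)) R) g p := by
  classical
  intro X hX
  have : NeZero p := ⟨hp.ne'⟩
  set s : Fin n → ℕ := fun x : Fin n => M ^ (x : ℕ) with hs
  set G := shiftG L s R with hG
  have hwit : ∀ q : Win L × Win L, ∃ Y : Finset (Fin n), Y.card ≤ 2 ∧ (G.Adj q.1 q.2 →
      ∃ x ∈ Y, ∃ y ∈ Y, R.Adj x y ∧ ∀ i j : Fin L, (i : ℕ) + s x = j + s y →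
        q.1.1 i = q.2.1 j) := by
    intro q
    by_cases h : G.Adj q.1 q.2
    · obtain ⟨_, x, y, hxy, h'⟩ := h
      exact ⟨{x, y}, Finset.card_le_two, fun _ => ⟨x, by simp, y, by simp, hxy, h'⟩⟩
    · exact ⟨∅, by simp, fun h' => absurd h' h⟩
  choose Y hY1 hY2 using hwit
  set Z := (X ×ˢ X).biUnion Y with hZ
  have hZc : Z.card ≤ 2 * g ^ 2 := by
    refine (Finset.card_biUnion_le_card_mul _ _ 2 (fun q _ => hY1 q)).trans ?_
    rw [Finset.card_product]
    nlinarith [Nat.mul_le_mul hX hX]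
  obtain ⟨f, hf1, hf2⟩ := hR Z hZc
  -- the induced graph on `X`
  let G' : SimpleGraph {a // a ∈ X} := G.comap (fun a => a.1)
  have hwalk : ∀ (a b : {a // a ∈ X}) (w : G'.Walk a b) (c : Win L) (m : ℕ) (v : Fin n → ℤ),
      Tr L s S m v c a.1 → ∃ v', Tr L s S (m + w.length) v' c b.1 := by
    intro a b w
    induction w with
    | nil => exact fun c m v h => ⟨v, h⟩
    | @cons a1 a2 a3 h w ih =>
      intro c m v hv
      have h2 : (shiftG L s R).Adj a1.1 a2.1 := h
      obtain ⟨_, x, y, hxy, h'⟩ := h2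
      obtain ⟨v', hv'⟩ := ih c (m + 1) _ (hv.step hS x y h')
      refine ⟨v', ?_⟩
      rw [SimpleGraph.Walk.length_cons]
      have e : m + (w.length + 1) = m + 1 + w.length := by ring
      rw [e]
      exact hv'
  let r : {a // a ∈ X} → {a // a ∈ X} := fun a => (G'.connectedComponentMk a).out
  have hr : ∀ a, G'.Reachable (r a) a := fun a =>
    SimpleGraph.ConnectedComponent.exact (Quot.out_eq (G'.connectedComponentMk a))
  have hv : ∀ a : {a // a ∈ X}, ∃ v, Tr L s S (g - 1) v (r a).1 a.1 := by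
    intro a
    obtain ⟨w, hw⟩ := (hr a).exists_isPath
    have h1 := hw.length_lt
    rw [Fintype.card_coe] at h1
    obtain ⟨v, hv⟩ := hwalk _ _ w _ 0 _ (Tr.refl L s S _)
    exact ⟨v, hv.mono (by omega)⟩
  choose v hv using hv
  let F : {a // a ∈ X} → ZMod p := fun a => ∑ x, ((v a x : ℤ) : ZMod p) * ((f x : ℕ) : ZMod p)
  refine ⟨fun a => if h : a ∈ X then (F ⟨a, h⟩).val else 0, ?_, ?_⟩
  · intro a
    by_cases h : a ∈ X
    · simp only [h, dif_pos]
      exact ZMod.val_lt _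
    · simp only [h, dif_neg, not_false_eq_true]
      exact hp
  · intro a ha b hb hab
    simp only [ha, hb, dif_pos]
    intro heq
    have hFeq : F ⟨a, ha⟩ = F ⟨b, hb⟩ := ZMod.val_injective p heq
    obtain ⟨x, hx, y, hy, hxy, h'⟩ := hY2 (a, b) hab
    have hadj : G'.Adj ⟨a, ha⟩ ⟨b, hb⟩ := hab
    have hrr : r ⟨a, ha⟩ = r ⟨b, hb⟩ := by
      simp only [r]
      rw [SimpleGraph.ConnectedComponent.eq.2 hadj.reachable]
    have hg : 1 ≤ g := by
      have : 0 < X.card := Finset.card_pos.2 ⟨a, ha⟩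
      omega
    have t1 := (hv ⟨a, ha⟩).step hS x y h'
    have t2 := (hv ⟨b, hb⟩).mono (Nat.le_succ (g - 1))
    rw [hrr] at t1
    have hgg : g - 1 + 1 = g := by omega
    have t2' : Tr L s S (g - 1 + 1) (v ⟨b, hb⟩) (r ⟨b, hb⟩).1 b := t2
    rw [hgg] at t1 t2'
    have t3 := Tr.unique hM hL t1 t2'
    have hxZ : x ∈ Z := Finset.mem_biUnion.2 ⟨(a, b), Finset.mem_product.2 ⟨ha, hb⟩, hx⟩
    have hyZ : y ∈ Z := Finset.mem_biUnion.2 ⟨(a, b), Finset.mem_product.2 ⟨ha, hb⟩, hy⟩
    have hne := hf2 x hxZ y hyZ hxy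
    have hF : F ⟨b, hb⟩ = F ⟨a, ha⟩ + (f x : ZMod p) - (f y : ZMod p) := by
      simp only [F]
      rw [← t3]
      simp only [Pi.add_apply, Pi.sub_apply, Int.cast_add, Int.cast_sub, sub_mul, add_mul,
        Finset.sum_sub_distrib, Finset.sum_add_distrib]
      congr 1
      · congr 1
        rw [Finset.sum_eq_single x]
        · simp
        · intro z _ hz
          simp [Pi.single_eq_of_ne hz]
        · simp
      · rw [Finset.sum_eq_single y]
        · simp
        · intro z _ hz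
          simp [Pi.single_eq_of_ne hz]
        · simp
    rw [← hFeq] at hF
    have h0 : (f x : ZMod p) = (f y : ZMod p) := by
      have := hF
      have h1 : F ⟨a, ha⟩ + ((f x : ZMod p) - (f y : ZMod p)) = F ⟨a, ha⟩ + 0 := by
        rw [add_zero, ← add_sub_assoc]
        exact this.symm
      exact sub_eq_zero.1 (add_left_cancel h1)
    rw [ZMod.natCast_eq_natCast_iff'] at h0
    rw [Nat.mod_eq_of_lt (hf1 x), Nat.mod_eq_of_lt (hf1 y)] at h0
    exact hne h0

/-- The window with a given set of values. -/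
noncomputable def winOf (L : ℕ) (T : Finset ℕ) : Win L :=
  if h : T.card = L then ⟨T.orderEmbOfFin h, (T.orderEmbOfFin h).strictMono⟩
  else ⟨fun i => (i : ℕ), fun _ _ h => h⟩

theorem winOf_image {L : ℕ} (a : Win L) :
    (univ.image a.1).card = L ∧ winOf L (univ.image a.1) = a := by
  have hc : (univ.image a.1).card = L := by
    rw [Finset.card_image_of_injective _ a.2.injective, Finset.card_univ, Fintype.card_fin]
  refine ⟨hc, ?_⟩
  unfold winOf
  rw [dif_pos hc]
  apply Subtype.ext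
  exact (Finset.orderEmbOfFin_unique hc (fun x => Finset.mem_image_of_mem _ (mem_univ x)) a.2).symm

/-- Every colouring of the windows with finitely many colours has a monochromatic copy of the
graph we started from. -/
theorem shiftG_embed {n : ℕ} (M S L : ℕ) (hM : 2 ≤ M) (hS : ∀ x : Fin n, M ^ (x : ℕ) ≤ S)
    (hL : 0 < L) (K : Type) [Finite K] (κ : Win L → K) :
    ∃ e : Fin n → Win L, Function.Injective e ∧
      (∀ (R : SimpleGraph (Fin n)) x y, R.Adj x y →
        (shiftG L (fun x : Fin n => M ^ (x : ℕ)) R).Adj (e x) (e y)) ∧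
      ∀ x y, κ (e x) = κ (e y) := by
  classical
  obtain ⟨T, hT, hT'⟩ := ramsey (fun T => κ (winOf L T)) (L + S)
  let A := T.orderEmbOfFin hT
  have hb : ∀ (x : Fin n) (i : Fin L), (i : ℕ) + M ^ (x : ℕ) < L + S := by
    intro x i
    have := hS x
    have := i.2
    omega
  let e : Fin n → Win L := fun x => ⟨fun i => A ⟨(i : ℕ) + M ^ (x : ℕ), hb x i⟩, by
    intro i j hij
    apply A.strictMono
    rw [Fin.mk_lt_mk]
    have : (i : ℕ) < j := hij
    omega⟩
  have hinj : Function.Injective e := by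
    intro x y hxy
    have h1 := congrFun (congrArg Subtype.val hxy) ⟨0, hL⟩
    have h2 := A.injective h1
    rw [Fin.mk.injEq] at h2
    simp only [Nat.zero_add] at h2
    exact Fin.ext (Nat.pow_right_injective hM h2)
  refine ⟨e, hinj, ?_, ?_⟩
  · intro R x y hxy
    refine ⟨fun h => hxy.ne (hinj h), x, y, hxy, ?_⟩
    intro i j hij
    simp only [e]
    congr 2
  · intro x y
    have h1 := winOf_image (e x)
    have h2 := winOf_image (e y)
    have hsub : ∀ z, univ.image (e z).1 ⊆ T := by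
      intro z t ht
      rw [Finset.mem_image] at ht
      obtain ⟨i, _, rfl⟩ := ht
      exact Finset.orderEmbOfFin_mem _ _ _
    have h3 := hT' _ _ (hsub x) (hsub y) (h1.1.trans h2.1.symm)
    simp only [h1.2, h2.2] at h3
    exact h3

/-- The robust lemma. -/
theorem robust (n g : ℕ) :
    ∃ (W : Type) (T : SimpleGraph (Fin n) → SimpleGraph W),
      (∀ R p, 0 < p → LocCol R (2 * g ^ 2) p → LocCol (T R) g p) ∧
      ∀ (K : Type) [Finite K] (κ : W → K), ∃ e : Fin n → W, Function.Injective e ∧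
        (∀ (R : SimpleGraph (Fin n)) x y, R.Adj x y → (T R).Adj (e x) (e y)) ∧
        ∀ x y, κ (e x) = κ (e y) := by
  have hS : ∀ x : Fin n, (2 * g + 2) ^ (x : ℕ) ≤ (2 * g + 2) ^ n := fun x =>
    Nat.pow_le_pow_right (by omega) x.2.le
  refine ⟨Win (2 * (g * (2 * g + 2) ^ n) + 1), shiftG _ (fun x : Fin n => (2 * g + 2) ^ (x : ℕ)),
    ?_, ?_⟩
  · intro R p hp hR
    exact shiftG_locCol R g p _ _ _ hp (by omega) hS (by omega) hR
  · intro K _ κ
    exact shiftG_embed _ _ _ (by omega) hS (by omega) K κ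

end Pool.Agent.Lib.MP_3240be_co.H36
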