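import Mathlib
import Pool.Agent.Lib.MP_3240be_co.H36.Shift

set_option autoImplicit false

/-!
# Hosts

Finite two-coloured graphs `R ⊔ B`, with `R` locally `p`-colourable and `B` locally
`q`-colourable, every two-colouring of which contains monochromatic blow-ups of cliques of total
order at least `p + q`.
-/

namespace Pool.Agent.Lib.MP_3240be_co.H36

open Finset

/-- A `β`-coloured copy of the complete `a`-partite graph with classes of size `h`. -/
def Blow {V : Type} (G : SimpleGraph V) (c : V → V → Bool) (h a : ℕ) (β : Bool) : Prop :=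
  ∃ F : Fin a → Fin h → V, (∀ i, Function.Injective (F i)) ∧
    ∀ i j, i ≠ j → ∀ u w, G.Adj (F i u) (F j w) ∧ c (F i u) (F j w) = β

/-- The arrow property of hosts. -/
def Arr {V : Type} (G : SimpleGraph V) (h t : ℕ) : Prop :=
  ∀ c : V → V → Bool, (∀ x y, c x y = c y x) →
    ∃ A B, t ≤ A + B + 1 ∧ Blow G c h A true ∧ Blow G c h B false

theorem exists_inj {α : Type} (s : Finset α) (h : ℕ) (hs : h ≤ s.card) :
    ∃ e : Fin h → α, Function.Injective e ∧ ∀ i, e i ∈ s := by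
  refine ⟨fun i => (s.equivFin.symm (Fin.castLE hs i)).1, ?_, ?_⟩
  · intro i j hij
    have h1 := Subtype.ext hij
    exact Fin.castLE_injective hs (s.equivFin.symm.injective h1)
  · intro i
    exact (s.equivFin.symm _).2

theorem LocCol.comap {V W : Type} {G : SimpleGraph V} {g p : ℕ} (h : LocCol G g p) (ε : W → V) :
    LocCol (G.comap ε) g p := by
  classical
  intro X hX
  obtain ⟨f, hf1, hf2⟩ := h (X.image ε) (Finset.card_image_le.trans hX)
  exact ⟨fun x => f (ε x), fun x => hf1 _, fun x hx y hy hxy =>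
    hf2 _ (Finset.mem_image_of_mem _ hx) _ (Finset.mem_image_of_mem _ hy) hxy⟩

/-- Hosts can be taken finite. -/
theorem Arr.fin {V : Type} {G : SimpleGraph V} {h t : ℕ} (hA : Arr G h t) :
    ∃ (m : ℕ) (ε : Fin m → V), Function.Injective ε ∧ Arr (G.comap ε) h t := by
  classical
  let Q : Finset V → (V → V → Bool) → ℕ → Bool → Prop := fun S c a β =>
    ∃ F : Fin a → Fin h → V, (∀ i, Function.Injective (F i)) ∧ (∀ i u, F i u ∈ S) ∧
      ∀ i j, i ≠ j → ∀ u w, G.Adj (F i u) (F j w) ∧ c (F i u) (F j w) = β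
  obtain ⟨S, m, ε, hε, hS, hc⟩ := extract_fin
    (fun S c => ∃ A B, t ≤ A + B + 1 ∧ Q S c A true ∧ Q S c B false)
    (by
      rintro S T c hST ⟨A, B, h1, ⟨F, hF1, hF2, hF3⟩, ⟨F', hF1', hF2', hF3'⟩⟩
      exact ⟨A, B, h1, ⟨F, hF1, fun i u => hST (hF2 i u), hF3⟩,
        ⟨F', hF1', fun i u => hST (hF2' i u), hF3'⟩⟩)
    (by
      rintro S c c' hcc ⟨A, B, h1, ⟨F, hF1, hF2, hF3⟩, ⟨F', hF1', hF2', hF3'⟩⟩
      refine ⟨A, B, h1, ⟨F, hF1, hF2, fun i j hij u w => ?_⟩,
        ⟨F', hF1', hF2', fun i j hij u w => ?_⟩⟩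
      · rw [← hcc _ (hF2 i u) _ (hF2 j w)]
        exact hF3 i j hij u w
      · rw [← hcc _ (hF2' i u) _ (hF2' j w)]
        exact hF3' i j hij u w)
    (by
      intro c hc
      obtain ⟨A, B, h1, ⟨F, hF1, hF3⟩, ⟨F', hF1', hF3'⟩⟩ := hA c hc
      refine ⟨(univ : Finset (Fin A × Fin h)).image (fun p => F p.1 p.2) ∪
        (univ : Finset (Fin B × Fin h)).image (fun p => F' p.1 p.2), A, B, h1,
        ⟨F, hF1, fun i u => ?_, hF3⟩, ⟨F', hF1', fun i u => ?_, hF3'⟩⟩
      · exact Finset.mem_union_left _ (Finset.mem_image.2 ⟨(i, u), mem_univ _, rfl⟩)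
      · exact Finset.mem_union_right _ (Finset.mem_image.2 ⟨(i, u), mem_univ _, rfl⟩))
  refine ⟨m, ε, hε, ?_⟩
  intro c' hc'
  obtain ⟨c, hcs, hce, A, B, h1, h2, h3⟩ := hc c' hc'
  have key : ∀ a β, Q S c a β → Blow (G.comap ε) c' h a β := by
    rintro a β ⟨F, hF1, hF2, hF3⟩
    choose F' hF' using fun i u => hS _ (hF2 i u)
    refine ⟨F', ?_, ?_⟩
    · intro i u w huw
      apply hF1 i
      rw [← hF' i u, ← hF' i w, huw]
    · intro i j hij u w
      rw [SimpleGraph.comap_adj, ← hce, hF', hF']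
      exact hF3 i j hij u w
  exact ⟨A, B, h1, key _ _ h2, key _ _ h3⟩

/-- Join (`r` true) or disjoint union (`r` false). -/
def joinG {Z W : Type} (P : SimpleGraph Z) (r : Prop) (G : SimpleGraph W) :
    SimpleGraph (Z ⊕ W) where
  Adj x y := match x, y with
    | Sum.inl x, Sum.inl y => P.Adj x y
    | Sum.inr x, Sum.inr y => G.Adj x y
    | Sum.inl _, Sum.inr _ => r
    | Sum.inr _, Sum.inl _ => r
  symm := ⟨by
    intro x y h
    rcases x with x | x <;> rcases y with y | y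
    · exact h.symm
    · exact h
    · exact h
    · exact h.symm⟩
  loopless := ⟨by
    intro x h
    rcases x with x | x
    · exact P.loopless.irrefl x h
    · exact G.loopless.irrefl x h⟩

theorem locCol_cone {Z W : Type} {G : SimpleGraph W} {g p : ℕ} (h : LocCol G g p) :
    LocCol (joinG (⊥ : SimpleGraph Z) True G) g (p + 1) := by
  classical
  intro X hX
  obtain ⟨f, hf1, hf2⟩ := h X.toRight (Finset.card_toRight_le.trans hX)
  refine ⟨fun x => match x with
    | Sum.inl _ => p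
    | Sum.inr w => f w, ?_, ?_⟩
  · rintro (x | x)
    · exact Nat.lt_succ_self p
    · exact (hf1 x).trans (Nat.lt_succ_self p)
  · rintro (x | x) hx (y | y) hy hxy
    · exact absurd hxy (by simp [joinG])
    · exact (hf1 y).ne'
    · exact (hf1 x).ne
    · exact hf2 x (Finset.mem_toRight.2 hx) y (Finset.mem_toRight.2 hy) hxy

theorem locCol_disj {Z W : Type} {G : SimpleGraph W} {g p : ℕ} (hp : 0 < p) (h : LocCol G g p) :
    LocCol (joinG (⊥ : SimpleGraph Z) False G) g p := by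
  classical
  intro X hX
  obtain ⟨f, hf1, hf2⟩ := h X.toRight (Finset.card_toRight_le.trans hX)
  refine ⟨fun x => match x with
    | Sum.inl _ => 0
    | Sum.inr w => f w, ?_, ?_⟩
  · rintro (x | x)
    · exact hp
    · exact hf1 x
  · rintro (x | x) hx (y | y) hy hxy
    · exact absurd hxy (by simp [joinG])
    · exact absurd hxy (by simp [joinG])
    · exact absurd hxy (by simp [joinG])
    · exact hf2 x (Finset.mem_toRight.2 hx) y (Finset.mem_toRight.2 hy) hxy

theorem Blow.cons {V : Type} {G : SimpleGraph V} {c : V → V → Bool} (hc : ∀ x y, c x y = c y x)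
    {h a : ℕ} {β : Bool} (F0 : Fin h → V) (h0 : Function.Injective F0)
    (F : Fin a → Fin h → V) (hF : ∀ i, Function.Injective (F i))
    (hF' : ∀ i j, i ≠ j → ∀ u w, G.Adj (F i u) (F j w) ∧ c (F i u) (F j w) = β)
    (hcross : ∀ i u w, G.Adj (F0 u) (F i w) ∧ c (F0 u) (F i w) = β) :
    Blow G c h (a + 1) β := by
  refine ⟨Fin.cons (α := fun _ => Fin h → V) F0 F, ?_, ?_⟩
  · intro i
    refine Fin.cases ?_ (fun i => ?_) i
    · simpa using h0
    · simpa using hF i
  · intro i j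
    refine Fin.cases (fun hij => ?_) (fun i hij => ?_) i
    · revert hij
      refine Fin.cases (fun hij => absurd rfl hij) (fun j _ u w => ?_) j
      simpa using hcross j u w
    · revert hij
      refine Fin.cases (fun _ u w => ?_) (fun j hij u w => ?_) j
      · have := hcross i w u
        simp only [Fin.cons_succ, Fin.cons_zero]
        exact ⟨this.1.symm, by rw [hc]; exact this.2⟩
      · simpa using hF' i j (fun h => hij (by rw [h])) u w

/-- Existence of a common value. -/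
theorem exists_const {α K : Type} [Nonempty K] (f : α → K) (h : ∀ x y, f x = f y) :
    ∃ π, ∀ x, f x = π := by
  rcases isEmpty_or_nonempty α with h1 | ⟨⟨x⟩⟩
  · exact ⟨Classical.arbitrary K, fun x => h1.elim x⟩
  · exact ⟨f x, fun y => h y x⟩

/-- One step of the construction of hosts. -/
theorem host_step {n h t p q g : ℕ} (hp : 0 < p) (hq : 0 < q) (R B : SimpleGraph (Fin n))
    (hR : LocCol R (2 * g ^ 2) p) (hB : LocCol B (2 * g ^ 2) q) (hA : Arr (R ⊔ B) h t) :
    ∃ (m : ℕ) (R' B' : SimpleGraph (Fin m)), LocCol R' g (p + 1) ∧ LocCol B' g q ∧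
      Arr (R' ⊔ B') h (t + 1) := by
  classical
  obtain ⟨W, T, hT1, hT2⟩ := robust n g
  let R1 := joinG (⊥ : SimpleGraph (Fin (2 * h))) True (T R)
  let B1 := joinG (⊥ : SimpleGraph (Fin (2 * h))) False (T B)
  have hR1 : LocCol R1 g (p + 1) := locCol_cone (hT1 R p hp hR)
  have hB1 : LocCol B1 g q := locCol_disj hq (hT1 B q hq hB)
  have hA1 : Arr (R1 ⊔ B1) h (t + 1) := by
    intro c hc
    obtain ⟨e, he1, he2, he3⟩ := hT2 (Fin (2 * h) → Bool)
      (fun w z => c (Sum.inl z) (Sum.inr w))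
    obtain ⟨π, hπ⟩ := exists_const (fun x => (fun z => c (Sum.inl z) (Sum.inr (e x)))) he3
    obtain ⟨A, B0, h1, ⟨F, hF1, hF2⟩, ⟨F', hF1', hF2'⟩⟩ := hA
      (fun x y => c (Sum.inr (e x)) (Sum.inr (e y))) (fun x y => hc _ _)
    obtain ⟨d, hd⟩ := Fintype.exists_le_card_fiber_of_mul_le_card (n := h) π (by simp)
    obtain ⟨z, hz1, hz2⟩ := exists_inj _ h hd
    have hadj : ∀ x y, (R ⊔ B).Adj x y → (R1 ⊔ B1).Adj (Sum.inr (e x)) (Sum.inr (e y)) := by
      intro x y hxy
      rcases hxy with hxy | hxy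
      · exact Or.inl (he2 R x y hxy)
      · exact Or.inr (he2 B x y hxy)
    have inj : ∀ {a : ℕ} (F : Fin a → Fin h → Fin n), (∀ i, Function.Injective (F i)) →
        ∀ i, Function.Injective (fun u => (Sum.inr (e (F i u)) : Fin (2 * h) ⊕ W)) := by
      intro a F hF i u w huw
      exact hF i (he1 (Sum.inr_injective huw))
    have hcons : ∀ {a : ℕ} (F : Fin a → Fin h → Fin n), (∀ i, Function.Injective (F i)) →
        (∀ i j, i ≠ j → ∀ u w, (R ⊔ B).Adj (F i u) (F j w) ∧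
          c (Sum.inr (e (F i u))) (Sum.inr (e (F j w))) = d) →
        Blow (R1 ⊔ B1) c h (a + 1) d := by
      intro a F hF1 hF2
      refine Blow.cons hc (fun u => Sum.inl (z u)) (fun u w huw => hz1 (Sum.inl_injective huw))
        (fun i u => Sum.inr (e (F i u))) (inj F hF1) ?_ ?_
      · intro i j hij u w
        exact ⟨hadj _ _ (hF2 i j hij u w).1, (hF2 i j hij u w).2⟩
      · intro i u w
        refine ⟨Or.inl trivial, ?_⟩
        have h2 := congrFun (hπ (F i w)) (z u)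
        rw [h2]
        exact (Finset.mem_filter.1 (hz2 u)).2
    have hkeep : ∀ {a : ℕ} {β : Bool} (F : Fin a → Fin h → Fin n),
        (∀ i, Function.Injective (F i)) →
        (∀ i j, i ≠ j → ∀ u w, (R ⊔ B).Adj (F i u) (F j w) ∧
          c (Sum.inr (e (F i u))) (Sum.inr (e (F j w))) = β) →
        Blow (R1 ⊔ B1) c h a β := by
      intro a β F hF1 hF2
      exact ⟨fun i u => Sum.inr (e (F i u)), inj F hF1, fun i j hij u w =>
        ⟨hadj _ _ (hF2 i j hij u w).1, (hF2 i j hij u w).2⟩⟩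
    cases d with
    | true => exact ⟨A + 1, B0, by omega, hcons F hF1 hF2, hkeep F' hF1' hF2'⟩
    | false => exact ⟨A, B0 + 1, by omega, hkeep F hF1 hF2, hcons F' hF1' hF2'⟩
  obtain ⟨m, ε, hε, hfin⟩ := hA1.fin
  refine ⟨m, R1.comap ε, B1.comap ε, hR1.comap ε, hB1.comap ε, ?_⟩
  have e1 : R1.comap ε ⊔ B1.comap ε = (R1 ⊔ B1).comap ε := by
    ext x y
    rfl
  rw [e1]
  exact hfin

/-- The host lemma. -/
theorem host (h : ℕ) : ∀ p q, 1 ≤ p → 1 ≤ q → ∀ g, ∃ (n : ℕ) (R B : SimpleGraph (Fin n)),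
    LocCol R g p ∧ LocCol B g q ∧ Arr (R ⊔ B) h (p + q + 1) := by
  have hswap : ∀ p q, (∀ g, ∃ (n : ℕ) (R B : SimpleGraph (Fin n)),
      LocCol R g p ∧ LocCol B g q ∧ Arr (R ⊔ B) h (p + q + 1)) →
      (∀ g, ∃ (n : ℕ) (R B : SimpleGraph (Fin n)),
      LocCol R g q ∧ LocCol B g p ∧ Arr (R ⊔ B) h (q + p + 1)) := by
    intro p q hpq g
    obtain ⟨n, R, B, h1, h2, h3⟩ := hpq g
    refine ⟨n, B, R, h2, h1, ?_⟩
    rw [sup_comm, add_comm q p]
    exact h3
  have hstep : ∀ p q, 1 ≤ p → 1 ≤ q → (∀ g, ∃ (n : ℕ) (R B : SimpleGraph (Fin n)),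
      LocCol R g p ∧ LocCol B g q ∧ Arr (R ⊔ B) h (p + q + 1)) →
      (∀ g, ∃ (n : ℕ) (R B : SimpleGraph (Fin n)),
      LocCol R g (p + 1) ∧ LocCol B g q ∧ Arr (R ⊔ B) h (p + 1 + q + 1)) := by
    intro p q hp hq hpq g
    obtain ⟨n, R, B, h1, h2, h3⟩ := hpq (2 * g ^ 2)
    obtain ⟨m, R', B', h1', h2', h3'⟩ := host_step hp hq R B h1 h2 h3
    refine ⟨m, R', B', h1', h2', ?_⟩
    have e : p + 1 + q + 1 = p + q + 1 + 1 := by ring
    rw [e]
    exact h3'
  have h11 : ∀ g, ∃ (n : ℕ) (R B : SimpleGraph (Fin n)),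
      LocCol R g 1 ∧ LocCol B g 1 ∧ Arr (R ⊔ B) h (1 + 1 + 1) := by
    intro g
    refine ⟨h, ⊥, ⊥, ?_, ?_, ?_⟩
    · exact fun X _ => ⟨fun _ => 0, fun _ => Nat.zero_lt_one, fun x _ y _ hxy => absurd hxy id⟩
    · exact fun X _ => ⟨fun _ => 0, fun _ => Nat.zero_lt_one, fun x _ y _ hxy => absurd hxy id⟩
    · intro c _
      have hb : ∀ β, Blow ((⊥ : SimpleGraph (Fin h)) ⊔ ⊥) c h 1 β := by
        intro β
        refine ⟨fun _ u => u, fun _ _ _ h => h, ?_⟩
        intro i j hij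
        exact absurd (Subsingleton.elim i j) hij
      exact ⟨1, 1, le_rfl, hb _, hb _⟩
  have hp1 : ∀ p, 1 ≤ p → ∀ g, ∃ (n : ℕ) (R B : SimpleGraph (Fin n)),
      LocCol R g p ∧ LocCol B g 1 ∧ Arr (R ⊔ B) h (p + 1 + 1) := by
    intro p hp
    induction p, hp using Nat.le_induction with
    | base => exact h11
    | succ p hp ih => exact hstep p 1 hp le_rfl ih
  intro p q hp hq
  induction p, hp using Nat.le_induction with
  | base => exact hswap q 1 (hp1 q hq)
  | succ p hp ih => exact hstep p q hp hq ih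

end Pool.Agent.Lib.MP_3240be_co.H36
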